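import Pool.Agent.T9h52.EP.B

/-!
# Few polynomials in `e`, and almost no powers of `e`, are periods of dimension one

Let `𝒫₁` be the space of all linear combinations, with algebraic coefficients, of the absolutely
convergent integrals `∫_σ P(x) / Q(x) dx` of the problem in dimension `n = 1` (with algebraic
coefficients also in `P`, `Q` and in the inequalities which define `σ ⊆ ℝ`). If `e` is in the algebra
of periods then so are all polynomials in `e`. We show that there are few polynomials in `e` in `𝒫₁`: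
among the polynomials of degree less than `N` with algebraic coefficients, a space of dimension `N`,
those whose value at `e` is in `𝒫₁` form a space of dimension at most `2 ⌈√N⌉`. In particular at most
`2 ⌈√N⌉` of `N` consecutive powers of `e` are in `𝒫₁`. The same holds for all transcendental numbers
instead of `e` and for the multiples `y P(e)` with any fixed `y ≠ 0`, for polynomials in several
algebraically independent numbers and for combinations of exponentials `e ^ α` with `α` in a box of a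
finitely generated group of algebraic numbers. The sets `S` of algebraic numbers `α` with `y e ^ α` in
`𝒫₁` are of the type of Sidon sets: each nonzero number is at most two times a difference of two
elements of `S`, and there is a lower bound for all the sumsets `A + S`.

The starting file `MP_2cf66e_nt.OneVariablePeriods` bounds the dimension of the space of the elements of
`𝒫₁` which are rational functions of `e` of degree at most `D` by `4 D - 1`, so that it says nothing about
the polynomials of degree at most `D` in `e`, a space of dimension `D + 1`.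

The proof. The space `𝒫₁` is contained in the space of linear forms in `1` and logarithms of algebraic
numbers. By the hyperplane case of the linear subgroup theorem of Waldschmidt and Roy (starting
files `Pool.Agent.W254.HP`) a subspace `W` of it expands under multiplication with any space `X`:
`dim X dim W ≤ dim (X W) + dim X (dim X - 1)`. We apply this to the space `X` of the polynomials of degree
less than `√N`, and to spaces which are generated by exponentials, with the theorem of Lindemann and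
Weierstrass.
-/

set_option autoImplicit false

namespace Pool.Agent.Results.MP_2cf66e_nt.AlmostAllPowers

open Module Pool.Agent.HP778.KZ Pool.Agent.T9h52.EP
open Pool.Agent.H301R2.SSE (QB mem_QB Lt)
open scoped Pointwise

theorem pairs {a y : ℂ} (ha : IsAlgebraic ℚ a) (ha0 : a ≠ 0) (hy : y ≠ 0) :
    {s : ℂ | IsAlgebraic ℚ s ∧ y * Complex.exp s ∈ periods1 ∧
      y * Complex.exp (s + a) ∈ periods1}.encard ≤ 2 := by
  classical
  by_contra hcon
  have h1 : (3 : ℕ∞) ≤ {s : ℂ | IsAlgebraic ℚ s ∧ y * Complex.exp s ∈ periods1 ∧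
      y * Complex.exp (s + a) ∈ periods1}.encard := by
    rw [not_le] at hcon
    exact Order.add_one_le_of_lt hcon
  obtain ⟨t, hts, ht⟩ := Set.exists_subset_encard_eq h1
  have htf : t.Finite := Set.finite_of_encard_eq_coe ht
  set T : Finset ℂ := htf.toFinset with hT
  have hTc : T.card = 3 := by
    have h2 := htf.encard_eq_coe_toFinset_card
    rw [ht] at h2
    exact_mod_cast h2.symm
  have hTm : ∀ s ∈ T, IsAlgebraic ℚ s ∧ y * Complex.exp s ∈ periods1 ∧
      y * Complex.exp (s + a) ∈ periods1 := by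
    intro s hs
    exact hts (htf.mem_toFinset.mp hs)
  set S : Finset ℂ := T ∪ T.image (· + a) with hS
  have hSm : ∀ s ∈ S, IsAlgebraic ℚ s ∧ y * Complex.exp s ∈ Lt := by
    intro s hs
    rcases Finset.mem_union.mp hs with hs | hs
    · exact ⟨(hTm s hs).1, periods1_le (hTm s hs).2.1⟩
    · obtain ⟨u, hu, rfl⟩ := Finset.mem_image.mp hs
      exact ⟨(hTm u hu).1.add ha, periods1_le (hTm u hu).2.2⟩
  have key := card_mul_le_exp {0, a} S (by
    intro x hx
    rw [Finset.mem_insert, Finset.mem_singleton] at hx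
    rcases hx with rfl | rfl
    · exact isAlgebraic_zero
    · exact ha) (fun s hs => (hSm s hs).1) hy (fun s hs => (hSm s hs).2)
  rw [Finset.card_pair (Ne.symm ha0)] at key
  have h3 : ({0, a} : Finset ℂ) + S = S ∪ S.image (· + a) := by
    ext x
    simp only [Finset.mem_add, Finset.mem_insert, Finset.mem_singleton, Finset.mem_union,
      Finset.mem_image]
    constructor
    · rintro ⟨u, rfl | rfl, v, hv, rfl⟩
      · left; rw [zero_add]; exact hv
      · right; exact ⟨v, hv, add_comm _ _⟩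
    · rintro (hx | ⟨v, hv, rfl⟩)
      · exact ⟨0, Or.inl rfl, x, hx, zero_add x⟩
      · exact ⟨a, Or.inr rfl, v, hv, add_comm _ _⟩
  have h4 := Finset.card_union_add_card_inter S (S.image (· + a))
  rw [Finset.card_image_of_injective S (add_left_injective a)] at h4
  have h5 : T.image (· + a) ⊆ S ∩ S.image (· + a) := by
    intro x hx
    rw [Finset.mem_inter]
    refine ⟨Finset.mem_union_right _ hx, ?_⟩
    obtain ⟨u, hu, rfl⟩ := Finset.mem_image.mp hx
    exact Finset.mem_image.mpr ⟨u, Finset.mem_union_left _ hu, rfl⟩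
  have h6 := Finset.card_le_card h5
  rw [Finset.card_image_of_injective T (add_left_injective a), hTc] at h6
  rw [h3] at key
  omega

theorem box {r : ℕ} (N h : ℕ) {f : (Fin r → ℕ) → ℂ} (hf : Function.Injective f)
    (hind : ∀ M, LinearIndependent QB (fun x : ((bx r M).image f : Finset ℂ) => (x : ℂ)))
    (y : ℂ) (H : ∀ W : Submodule QB ℂ, W ≤ V r f N → (∀ w ∈ W, y * w ∈ Lt) →
      finrank QB W ≤ (h + 1) ^ r + h ^ r - 1) :
    {n : Fin r → ℕ | (∀ i, n i < N) ∧ y * f n ∈ periods1}.encard ≤
      (((h + 1) ^ r + h ^ r - 1 : ℕ) : ℕ∞) := by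
  classical
  have hfin : {n : Fin r → ℕ | (∀ i, n i < N) ∧ y * f n ∈ periods1}.Finite :=
    (bx r N).finite_toSet.subset fun n hn => mem_bx.mpr hn.1
  rw [hfin.encard_eq_coe_toFinset_card]
  norm_cast
  set B := hfin.toFinset with hBdef
  have hB : ∀ n ∈ B, (∀ i, n i < N) ∧ y * f n ∈ periods1 := fun n hn => hfin.mem_toFinset.mp hn
  have hBN : B ⊆ bx r N := fun n hn => mem_bx.mpr (hB n hn).1
  have hfd : FiniteDimensional QB (Submodule.span QB ((B.image f : Finset ℂ) : Set ℂ)) :=
    FiniteDimensional.span_of_finite QB (B.image f).finite_toSet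
  refine (count_of_dim hf hind B hBN
    (Submodule.span QB ((B.image f : Finset ℂ) : Set ℂ)) fun n hn =>
      Submodule.subset_span (Finset.mem_coe.mpr (Finset.mem_image_of_mem f hn))).trans ?_
  apply H
  · refine Submodule.span_mono ?_
    rw [Finset.coe_subset]
    exact Finset.image_subset_image hBN
  · intro w hw
    induction hw using Submodule.span_induction with
    | mem w hw =>
      obtain ⟨n, hn, rfl⟩ := Finset.mem_image.mp (Finset.mem_coe.mp hw)
      exact periods1_le (hB n hn).2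
    | zero => rw [mul_zero]; exact Submodule.zero_mem _
    | add u v _ _ h1 h2 => rw [mul_add]; exact Submodule.add_mem _ h1 h2
    | smul c u _ h1 => rw [mul_smul_comm]; exact Submodule.smul_mem _ _ h1

theorem sqrt_facts {N : ℕ} (hN : 1 ≤ N) :
    1 ≤ ⌈Real.sqrt N⌉₊ ∧ N ≤ ⌈Real.sqrt N⌉₊ ^ 2 := by
  constructor
  · rw [Nat.one_le_ceil_iff]
    positivity
  · have h1 : Real.sqrt N ≤ (⌈Real.sqrt N⌉₊ : ℝ) := Nat.le_ceil _
    have h2 : (N : ℝ) ≤ (⌈Real.sqrt N⌉₊ : ℝ) ^ 2 := by
      rw [← Real.sqrt_le_left (Nat.cast_nonneg _)]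
      exact h1
    exact_mod_cast h2

theorem ai_one {t : ℂ} (ht : Transcendental ℚ t) :
    AlgebraicIndependent ℚ (fun _ : Fin 1 => t) := by
  rw [algebraicIndependent_unique_type_iff]
  exact ht

theorem polys {t : ℂ} (ht : Transcendental ℚ t) {y : ℂ} (hy : y ≠ 0) {N : ℕ} (hN : 1 ≤ N)
    (W : Submodule QB ℂ) (hW : ∀ w ∈ W, ∃ P : Polynomial QB, P.natDegree < N ∧
      w = Polynomial.aeval t P) (hW' : ∀ w ∈ W, y * w ∈ periods1) :
    finrank QB W ≤ 2 * ⌈Real.sqrt N⌉₊ := by
  obtain ⟨h1, h2⟩ := sqrt_facts hN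
  have h3 := dim_mon (fun _ : Fin 1 => t) (ai_one ht) hy N _ h2 h1 W ?_
    (fun w hw => periods1_le (hW' w hw))
  · rw [pow_one, pow_one] at h3
    omega
  · intro w hw
    obtain ⟨P, hP, rfl⟩ := hW w hw
    rw [Polynomial.aeval_eq_sum_range]
    apply Submodule.sum_mem
    intro d hd
    apply Submodule.smul_mem
    refine Submodule.subset_span ?_
    rw [Finset.mem_coe, Finset.mem_image]
    refine ⟨fun _ => d, mem_bx.mpr fun i => ?_, ?_⟩
    · rw [Finset.mem_range] at hd
      omega
    · rw [Fin.prod_univ_one]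

theorem powers {t : ℂ} (ht : Transcendental ℚ t) {y : ℂ} (hy : y ≠ 0) (M : ℤ) (N : ℕ) :
    {n : ℤ | M ≤ n ∧ n < M + N ∧ y * t ^ n ∈ periods1}.encard ≤
      ((2 * ⌈Real.sqrt N⌉₊ : ℕ) : ℕ∞) := by
  classical
  have ht0 : t ≠ 0 := by
    rintro rfl
    exact ht isAlgebraic_zero
  rcases Nat.eq_zero_or_pos N with rfl | hN
  · have : {n : ℤ | M ≤ n ∧ n < M + (0 : ℕ) ∧ y * t ^ n ∈ periods1} = ∅ := by
      rw [Set.eq_empty_iff_forall_notMem]
      rintro n ⟨h1, h2, -⟩
      simp at h2
      omega
    rw [this, Set.encard_empty]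
    exact bot_le
  · obtain ⟨hh1, hNh⟩ := sqrt_facts hN
    set h := ⌈Real.sqrt N⌉₊ with hh
    have h3 := box (r := 1) N h (f := fun n => ∏ i, (fun _ : Fin 1 => t) i ^ n i)
      (monomial_indep (fun _ : Fin 1 => t) (ai_one ht)).injective
      (mon_box_indep (fun _ : Fin 1 => t) (ai_one ht)) (y * t ^ M)
      (fun W hW1 hW2 => dim_mon (fun _ : Fin 1 => t) (ai_one ht)
        (mul_ne_zero hy (zpow_ne_zero _ ht0)) N h hNh hh1 W hW1 hW2)
    have h4 : (h + 1) ^ 1 + h ^ 1 - 1 = 2 * h := by
      rw [pow_one, pow_one]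
      omega
    rw [h4] at h3
    refine le_trans ?_ h3
    let f : ℤ → (Fin 1 → ℕ) := fun n _ => (n - M).toNat
    refine Set.encard_le_encard_of_injOn (f := f) ?_ ?_
    · intro n hn
      obtain ⟨h5, h6, h7⟩ := hn
      refine ⟨fun i => ?_, ?_⟩
      · show (n - M).toNat < N
        omega
      · have h8 : (y * t ^ M) * ∏ i : Fin 1, t ^ (f n i) = y * t ^ n := by
          rw [Fin.prod_univ_one]
          show y * t ^ M * t ^ ((n - M).toNat) = y * t ^ n
          rw [mul_assoc, ← zpow_natCast, ← zpow_add₀ ht0]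
          congr 2
          omega
        show (y * t ^ M) * ∏ i : Fin 1, t ^ (f n i) ∈ periods1
        rw [h8]
        exact h7
    · intro m hm n hn hmn
      have h9 : (m - M).toNat = (n - M).toNat := congrFun hmn 0
      have h10 := hm.1
      have h11 := hn.1
      omega

/-- **Main result.** Let `𝒫₁` be the space of the one-variable periods `periods1`. All spaces are spaces
over the field of the algebraic numbers.

(1) Let `t` be transcendental, for instance `t = e`, let `y ≠ 0` be any complex number and `N ≥ 1`. Every space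
of values `w = P(t)` of polynomials `P` of degree less than `N` with algebraic coefficients such that `y w` is
in `𝒫₁` for all `w` in the space has dimension at most `2 ⌈√N⌉`.

(2) Let `t_1, ..., t_r` be algebraically independent numbers, `y ≠ 0`, `N ≤ h ^ 2` and `h ≥ 1`. Every space of
values `w = P(t_1, ..., t_r)` of polynomials `P` of degree less than `N` in each variable with algebraic
coefficients such that `y w` is in `𝒫₁` for all `w` in the space has dimension at most
`(h + 1) ^ r + h ^ r - 1`.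

(3) Let `A` and `S` be finite sets of algebraic numbers, `S` not empty, and let `y ≠ 0` be a complex number. Let
`W` be a space of combinations, with algebraic coefficients, of the numbers `e ^ s`, `s` in `S`, such that `y w`
is in `𝒫₁` for all `w` in `W`. Then `|A| dim W ≤ |A + S| + |A| (|A| - 1)`. In particular
`|A| |S| ≤ |A + S| + |A| (|A| - 1)` if `y e ^ s` is in `𝒫₁` for all `s` in `S`.

(4) Let `a ≠ 0` be algebraic and `y ≠ 0`. There are at most two algebraic numbers `s` such that both
`y e ^ s` and `y e ^ (s + a)` are in `𝒫₁`.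

(5) Let `α_1, ..., α_r` be algebraic numbers which are linearly independent over the rational numbers, let
`y ≠ 0`, `N ≤ h ^ 2` and `h ≥ 1`. At most `(h + 1) ^ r + h ^ r - 1` of the `N ^ r` numbers
`y e ^ (n_1 α_1 + ... + n_r α_r)`, `0 ≤ n_i < N`, are in `𝒫₁`.

(6) Let `t` be transcendental, for instance `t = e`, and `y ≠ 0`. Among any `N` consecutive integers `n`
there are at most `2 ⌈√N⌉` such that `y t ^ n` is in `𝒫₁`.

(7) The density of the set of the natural numbers `n` with `e ^ n` in `𝒫₁` is zero: for `N ≥ 1` there are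
at most `2 ⌈√N⌉` such numbers `n ≤ N`, and `2 ⌈√N⌉ / N` tends to `0`. -/
theorem result :
    (∀ t : ℂ, Transcendental ℚ t → ∀ y : ℂ, y ≠ 0 → ∀ N : ℕ, 1 ≤ N →
      ∀ W : Submodule (algebraicClosure ℚ ℂ) ℂ,
        (∀ w ∈ W, ∃ P : Polynomial (algebraicClosure ℚ ℂ), P.natDegree < N ∧
          w = Polynomial.aeval t P) → (∀ w ∈ W, y * w ∈ periods1) →
        finrank (algebraicClosure ℚ ℂ) W ≤ 2 * ⌈Real.sqrt N⌉₊) ∧
    (∀ (r : ℕ) (t : Fin r → ℂ), AlgebraicIndependent ℚ t →
      ∀ y : ℂ, y ≠ 0 → ∀ N h : ℕ, N ≤ h ^ 2 → 1 ≤ h →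
      ∀ W : Submodule (algebraicClosure ℚ ℂ) ℂ,
        (∀ w ∈ W, ∃ P : MvPolynomial (Fin r) (algebraicClosure ℚ ℂ), (∀ i, P.degreeOf i < N) ∧
          w = MvPolynomial.aeval t P) → (∀ w ∈ W, y * w ∈ periods1) →
        finrank (algebraicClosure ℚ ℂ) W ≤ (h + 1) ^ r + h ^ r - 1) ∧
    (∀ (A S : Finset ℂ), (∀ a ∈ A, IsAlgebraic ℚ a) → (∀ s ∈ S, IsAlgebraic ℚ s) → S.Nonempty →
      ∀ y : ℂ, y ≠ 0 →
      (∀ W : Submodule (algebraicClosure ℚ ℂ) ℂ,
        W ≤ Submodule.span (algebraicClosure ℚ ℂ) (Complex.exp '' (S : Set ℂ)) →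
        (∀ w ∈ W, y * w ∈ periods1) →
        A.card * finrank (algebraicClosure ℚ ℂ) W ≤ (A + S).card + A.card * (A.card - 1)) ∧
      ((∀ s ∈ S, y * Complex.exp s ∈ periods1) →
        A.card * S.card ≤ (A + S).card + A.card * (A.card - 1))) ∧
    (∀ a y : ℂ, IsAlgebraic ℚ a → a ≠ 0 → y ≠ 0 →
      {s : ℂ | IsAlgebraic ℚ s ∧ y * Complex.exp s ∈ periods1 ∧
        y * Complex.exp (s + a) ∈ periods1}.encard ≤ 2) ∧
    (∀ (r : ℕ) (α : Fin r → ℂ), (∀ i, IsAlgebraic ℚ (α i)) → LinearIndependent ℚ α →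
      ∀ y : ℂ, y ≠ 0 → ∀ N h : ℕ, N ≤ h ^ 2 → 1 ≤ h →
        {n : Fin r → ℕ | (∀ i, n i < N) ∧
          y * Complex.exp (∑ i, (n i : ℂ) * α i) ∈ periods1}.encard ≤
            (((h + 1) ^ r + h ^ r - 1 : ℕ) : ℕ∞)) ∧
    (∀ t : ℂ, Transcendental ℚ t → ∀ y : ℂ, y ≠ 0 → ∀ (M : ℤ) (N : ℕ),
      {n : ℤ | M ≤ n ∧ n < M + N ∧ y * t ^ n ∈ periods1}.encard ≤
        ((2 * ⌈Real.sqrt N⌉₊ : ℕ) : ℕ∞)) ∧
    (∀ N : ℕ, 1 ≤ N → {n : ℕ | 1 ≤ n ∧ n ≤ N ∧
        (((Real.exp 1 : ℝ) : ℂ) ^ n) ∈ periods1}.encard ≤ ((2 * ⌈Real.sqrt N⌉₊ : ℕ) : ℕ∞)) ∧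
    Filter.Tendsto (fun N : ℕ => (2 * (⌈Real.sqrt N⌉₊ : ℝ)) / N) Filter.atTop (nhds 0) := by
  refine ⟨?_, ?_, ?_, ?_, ?_, ?_, ?_, ?_⟩
  · intro t ht y hy N hN W hW hW'
    exact polys ht hy hN W hW hW'
  · intro r t ht y hy N h hN hh W hW hW'
    refine dim_mon t ht hy N h hN hh W ?_ fun w hw => periods1_le (hW' w hw)
    intro w hw
    obtain ⟨P, hP, rfl⟩ := hW w hw
    exact aeval_mem_V t N P hP
  · intro A S hA hS hS0 y hy
    refine ⟨fun W hW hW' => ?_, fun hmem => ?_⟩
    · exact dim_le_exp A S hA hS hS0 hy W hW fun w hw => periods1_le (hW' w hw)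
    · exact card_mul_le_exp A S hA hS hy fun s hs => periods1_le (hmem s hs)
  · intro a y ha ha0 hy
    exact pairs ha ha0 hy
  · intro r α hα hl y hy N h hN hh
    exact box N h (f := fun n => Complex.exp (∑ i, (n i : ℂ) * α i))
      (exp_sum_injective α hα hl) (exp_box_indep α hα) y
      fun W hW1 hW2 => dim_exp α hα hl hy N h hN hh W hW1 hW2
  · intro t ht y hy M N
    exact powers ht hy M N
  · intro N hN
    have he : Transcendental ℚ ((Real.exp 1 : ℝ) : ℂ) :=
      Pool.Agent.HP778.ofReal_transcendental Pool.Agent.H340R2.LW.transcendental_exp_one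
    refine le_trans ?_ (powers he one_ne_zero 1 N)
    refine Set.encard_le_encard_of_injOn (f := fun n : ℕ => (n : ℤ)) ?_ ?_
    · rintro n ⟨h1, h2, h3⟩
      refine ⟨?_, ?_, ?_⟩
      · show (1 : ℤ) ≤ (n : ℤ)
        exact_mod_cast h1
      · show (n : ℤ) < 1 + (N : ℤ)
        omega
      show (1 : ℂ) * ((Real.exp 1 : ℝ) : ℂ) ^ (n : ℤ) ∈ periods1
      rw [one_mul]
      rw [zpow_natCast]
      exact h3
    · intro m _ n _ hmn
      have h4 : (m : ℤ) = (n : ℤ) := hmn
      exact_mod_cast h4
  · have h1 : Filter.Tendsto (fun N : ℕ => 2 * (1 / Real.sqrt N + 1 / (N : ℝ))) Filter.atTop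
        (nhds (2 * (0 + 0))) := by
      apply Filter.Tendsto.const_mul
      apply Filter.Tendsto.add
      · have h2 : Filter.Tendsto (fun N : ℕ => Real.sqrt N) Filter.atTop Filter.atTop :=
          Real.tendsto_sqrt_atTop.comp tendsto_natCast_atTop_atTop
        have h3 := h2.inv_tendsto_atTop
        refine h3.congr fun N => ?_
        rw [Pi.inv_apply, one_div]
      · exact tendsto_one_div_atTop_nhds_zero_nat
    rw [add_zero, mul_zero] at h1
    refine squeeze_zero' (Filter.Eventually.of_forall fun N => by positivity) ?_ h1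
    filter_upwards [Filter.eventually_ge_atTop 1] with N hN
    have hN' : (0 : ℝ) < N := by exact_mod_cast hN
    have h4 : (⌈Real.sqrt N⌉₊ : ℝ) ≤ Real.sqrt N + 1 :=
      (Nat.ceil_lt_add_one (Real.sqrt_nonneg _)).le
    have h5 : Real.sqrt N / N = 1 / Real.sqrt N := by
      rw [Real.sqrt_div_self, one_div]
    calc (2 * (⌈Real.sqrt N⌉₊ : ℝ)) / N ≤ (2 * (Real.sqrt N + 1)) / N := by gcongr
      _ = 2 * (Real.sqrt N / N + 1 / (N : ℝ)) := by ring
      _ = 2 * (1 / Real.sqrt N + 1 / (N : ℝ)) := by rw [h5]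

end Pool.Agent.Results.MP_2cf66e_nt.AlmostAllPowers
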