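import Pool.Agent.T9h85.EP.Facts

/-!
# The exponentials of algebraic numbers against the periods of the curves whose parameters have heights near all multiples of Carmichael's function

Polynomials with algebraic coefficients in the periods of the algebraic forms on a variety over the algebraic numbers are
periods in the sense of Kontsevich and Zagier. Let `F` be a family with symplectic monodromy over an open subset `U` of the
line, for instance the products of the Legendre curve with parameter `x` and other curves whose periods at `x` are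
hypergeometric functions. Let `G` be a function with steps bounded below by a positive constant and polynomial growth, for
example `a v^e`. Let `B ≥ 1` be ARBITRARY and let `0 ≤ κ < 1 / B`.

We show that for every `U` there is a set `P` of natural numbers, with at most `Y / (log Y)^U` elements up to `Y`, such that for
all number fields `K` in `ℂ`, all algebraic numbers `γ` and all `k`, for all but finitely many `m` outside `P`: for EVERY
multiple `w ≤ m^B` of Carmichael's function `λ(m)` and for EVERY `x` in `K` with `|height x - G w| ≤ w^κ` the number `e^γ` has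
nothing to do with the periods of the member of the family over `x`. Here `P` does not depend on `K`, `γ`, `k`. More generally
`w` is any common multiple of the values `f(p)`, `p` running through the large primes which divide `m` exactly once, where
`f` takes each positive value at boundedly many primes.

A single `m` has a power of `m` multiples of this kind, and a single `w ≤ m^B` can be a multiple of `λ(m)` for more than
`Y^(1 - ε)` numbers `m ≤ Y`, so this does not follow from the number of the exceptional members.
-/

set_option autoImplicit false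

namespace Pool.Agent.Results.MP_2cf66e_nt.CarmichaelMultiples

open Pool.Agent Pool.Agent.Y890.MV Pool.Agent.Y890.SM
open Pool.Agent.N733.TG (Expanding expanding_pow)
open Pool.Agent.N790.CM (FewTimes Carries fewTimes_pred pred_dvd_carmichael)
open Pool.Agent.T9h85.EP (Unrel unrel_of_good car_all facts)
open Pool.Agent.N603.DB (height)

/-- **Exponentials, periods and the multiples of Carmichael's function.**
(1) Let `Z` be a countable set of complex numbers, `F` a family with symplectic monodromy with one parameter, let `G` have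
steps `≥ a > 0` and growth at most `v^d`, `B ≥ 1`, `κ ≥ 0`, `B κ < 1`, and let `f` take each positive value at most `T` times
at the primes. For every `U` there is a set `P` with at most `Y / (log Y)^U` elements up to `Y` such that for all number
fields `K` in `ℂ`, all `k ≥ [K : ℚ]` and all `z` in `Z`, for all large `m` outside `P`: for EVERY `w` with `1 ≤ w ≤ m^B` and
`f(p) ∣ w` for all primes `p > exp (√(log m))` which divide `m` exactly once, and EVERY `x` in `K` in `InnerM F.U k` with
`|height K x - G w| ≤ w^κ`: `z` has nothing to do with the periods over `x` (`Unrel F k K z x`).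
(2) The numbers `e^γ` for algebraic `γ` form a countable set, and there is `γ₀` such that all of them with `γ ∉ ℚ γ₀` are
transcendental over `ℚ(π)`; (3) an example of the families: products of Legendre curves and hypergeometric functions;
(4) the meaning of the height; (5) `f(p) = p - 1` takes each value at most once, and every multiple of Carmichael's function
`λ(m)` is divisible by `p - 1` for all `p ∣ m`; (6) examples of `G`. -/
theorem result :
    (∀ (Z : Set ℂ), Z.Countable → ∀ (X : Type) [Fintype X] [DecidableEq X] [Nonempty X], Fintype.card X = 1 →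
      ∀ (ι : Type) [Fintype ι] [DecidableEq ι] (n : ι → ℕ) (F : SympFam X n)
      (G : ℕ → ℝ) (d : ℝ), Expanding G d → ∀ κ B : ℝ, 0 ≤ κ → 1 ≤ B → B * κ < 1 →
      ∀ (f : ℕ → ℕ) (T : ℕ), FewTimes f T → ∀ U : ℕ,
      ∃ P : Set ℕ, (∀ Y : ℕ, 1 < Y → ({m : ℕ | m ∈ P ∧ m ≤ Y}.ncard : ℝ) ≤ Y / Real.log Y ^ U) ∧
        ∀ (K : IntermediateField ℚ ℂ) [NumberField K] (k : ℕ), Module.finrank ℚ K ≤ k → ∀ z ∈ Z,
          ∃ m₀ : ℕ, ∀ m : ℕ, m₀ ≤ m → m ∉ P → ∀ w : ℕ, 1 ≤ w → (w : ℝ) ≤ (m : ℝ) ^ B →
            Carries f (Real.exp √(Real.log m)) m w →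
            ∀ x : K, (fun _ : X => (x : ℂ)) ∈ InnerM F.U k → |height K x - G w| ≤ (w : ℝ) ^ κ →
              Unrel F k K z x) ∧
    ({z : ℂ | ∃ γ : ℂ, IsAlgebraic ℚ γ ∧ z = Complex.exp γ}.Countable ∧
      ∃ γ₀ : ℂ, ∀ γ : ℂ, IsAlgebraic ℚ γ → (∀ q : ℚ, γ ≠ q * γ₀) →
        Transcendental (IntermediateField.adjoin ℚ {(Real.pi : ℂ)}) (Complex.exp γ)) ∧
    (∀ A : Finset ℚ, (∀ μ ∈ A, 0 < μ ∧ μ ≤ 1 / 2) →
      ∃ F : SympFam (Fin 1) (fun _ : Fin 1 × A => 2),
        F.U = {x | x 0 ∈ Complex.slitPlane ∧ 1 - x 0 ∈ Complex.slitPlane} ∧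
        (∀ q x, F.P q x = N156.HG.PH ((q.2.1 : ℚ) : ℝ) (x 0)) ∧
        ∀ x p, p ∈ F.torsor x ↔ p.2 ≠ 0 ∧ ∀ q, -(2 * Complex.I) *
          ((Real.sin (Real.pi * (q.2.1 : ℚ)) : ℝ) : ℂ) * (x 0 * (1 - x 0)) * (p.1 q).det = p.2) ∧
    (∀ (K : Type) [Field K] [NumberField K] (x : K) (T : ℝ), height K x ≤ T ↔ Y120.HtLe K T x) ∧
    (FewTimes (fun p => p - 1) 1 ∧
      ∀ (y : ℝ) (m w : ℕ), ArithmeticFunction.carmichael m ∣ w → Carries (fun p => p - 1) y m w) ∧
    ∀ α d : ℝ, 0 < α → 1 ≤ d → Expanding (fun v => α * (v : ℝ) ^ d) d := by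
  refine ⟨fun Z hZ X _ _ _ hX ι _ _ n F G d hG κ B hκ hB h1 f T hf U => ?_, facts.1, facts.2.1, facts.2.2,
    ⟨fewTimes_pred, fun y m w h p hp _ hpm _ => (pred_dvd_carmichael hp hpm).trans h⟩,
    fun α d hα hd => expanding_pow hα hd⟩
  obtain ⟨P, h2, h3⟩ := car_all F hX hZ hG hκ hB h1 hf U
  refine ⟨P, h2, fun K _ k hk z hz => ?_⟩
  obtain ⟨m₀, h4⟩ := h3 K k hk z hz
  exact ⟨m₀, fun m hm hmP w hw1 hw2 hw3 x hx h => unrel_of_good (h4 m hm hmP w hw1 hw2 hw3 x hx h)⟩

end Pool.Agent.Results.MP_2cf66e_nt.CarmichaelMultiples
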