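import Pool.Agent.T9h85.EP.Facts

/-!
# The exponentials of algebraic numbers against the periods of the curves whose parameters have heights near the values of generic polynomials and linear forms

Polynomials with algebraic coefficients in the periods of the algebraic forms on a variety over the algebraic numbers are
periods in the sense of Kontsevich and Zagier. Let `F` be a family with symplectic monodromy over an open subset `U` of the
line, for instance the products of the Legendre curve with parameter `x` and other curves whose periods at `x` are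
hypergeometric functions. Let `v` be a family of vectors in `ℝ^r` with `O_ε(X^(τ + ε))` members of norm at most `X`, for
example the vectors `(1, n, …, n^D)`, `τ = 1 / D`, or `(b_1^(n_1), …, b_r^(n_r))`, `τ = 0`, and let `θ < 1`.

We show that there is a set `E` in `ℝ^r` of Hausdorff dimension at most `r - 1 + τ / (1 - θ)` such that for all `α` outside `E`,
all `c`, all number fields `K` in `ℂ`, all algebraic numbers `γ` and all `k`, for all but finitely many `i`: for EVERY `x` in
`K` with `|height x - α · v_i| ≤ c ‖v_i‖^θ` the number `e^γ` has nothing to do with the periods of the member of the family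
over `x`. So for almost all real polynomials `g` of degree `D` this is the case for all `x` with a height within `n^(Dθ)` of
`g(n)`, `θ < 1 - 1 / D`, for all large `n`, and for all `α` outside a set of dimension at most `r - 1` for the heights near
the numbers `α_1 b_1^(n_1) + … + α_r b_r^(n_r)`.
-/

set_option autoImplicit false

namespace Pool.Agent.Results.MP_2cf66e_nt.GenericLinearForms

open Pool.Agent Pool.Agent.Y890.MV Pool.Agent.Y890.SM
open Pool.Agent.N251.LF (Fam Sq)
open Pool.Agent.T9h85.EP (Unrel unrel_of_good lin_all facts)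
open Pool.Agent.N603.DB (height)

/-- **Exponentials, periods and the values of generic linear forms.**
(1) Let `Z` be a countable set of complex numbers, `F` a family with symplectic monodromy with one parameter, `v` a family of
vectors in `ℝ^r` with `O_ε(X^(τ + ε))` members of norm at most `X` (`Fam v τ`), `θ < 1`. There is a set `E` of Hausdorff
dimension at most `r - 1 + τ / (1 - θ)` such that for all `α` outside `E`, all number fields `K` in `ℂ`, all `k ≥ [K : ℚ]`, all
`z` in `Z` and all `c`, for all but finitely many `i`: for EVERY `x` in `K` in `InnerM F.U k` with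
`|height K x - α · v_i| ≤ c ‖v_i‖^θ`: `z` has nothing to do with the periods over `x` (`Unrel F k K z x`).
(2) The numbers `e^γ` for algebraic `γ` form a countable set, and there is `γ₀` such that all of them with `γ ∉ ℚ γ₀` are
transcendental over `ℚ(π)`; (3) an example of the families `F`: products of Legendre curves and hypergeometric functions;
(4) the meaning of the height; (5) - (8) examples of the families `v`. -/
theorem result :
    (∀ (Z : Set ℂ), Z.Countable → ∀ (X : Type) [Fintype X] [DecidableEq X] [Nonempty X], Fintype.card X = 1 →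
      ∀ (ι : Type) [Fintype ι] [DecidableEq ι] (n : ι → ℕ) (F : SympFam X n)
      (I : Type) (r : ℕ) (v : I → Fin r → ℝ) (τ θ : ℝ), Fam v τ → 0 ≤ τ → θ < 1 →
      ∃ E : Set (Fin r → ℝ), dimH E ≤ ENNReal.ofReal ((r : ℝ) - 1 + τ / (1 - θ)) ∧
        ∀ α, α ∉ E → ∀ (K : IntermediateField ℚ ℂ) [NumberField K] (k : ℕ), Module.finrank ℚ K ≤ k → ∀ z ∈ Z,
          ∀ c : ℝ, {i | ¬ ∀ x : K, (fun _ : X => (x : ℂ)) ∈ InnerM F.U k →
            |height K x - ∑ j, α j * v i j| ≤ c * ‖v i‖ ^ θ → Unrel F k K z x}.Finite) ∧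
    ({z : ℂ | ∃ γ : ℂ, IsAlgebraic ℚ γ ∧ z = Complex.exp γ}.Countable ∧
      ∃ γ₀ : ℂ, ∀ γ : ℂ, IsAlgebraic ℚ γ → (∀ q : ℚ, γ ≠ q * γ₀) →
        Transcendental (IntermediateField.adjoin ℚ {(Real.pi : ℂ)}) (Complex.exp γ)) ∧
    (∀ A : Finset ℚ, (∀ μ ∈ A, 0 < μ ∧ μ ≤ 1 / 2) →
      ∃ F : SympFam (Fin 1) (fun _ : Fin 1 × A => 2),
        F.U = {x | x 0 ∈ Complex.slitPlane ∧ 1 - x 0 ∈ Complex.slitPlane} ∧
        (∀ q x, F.P q x = N156.HG.PH ((q.2.1 : ℚ) : ℝ) (x 0)) ∧
        ∀ x p, p ∈ F.torsor x ↔ p.2 ≠ 0 ∧ ∀ q, -(2 * Complex.I) *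
          ((Real.sin (Real.pi * (q.2.1 : ℚ)) : ℝ) : ℂ) * (x 0 * (1 - x 0)) * (p.1 q).det = p.2) ∧
    (∀ (K : Type) [Field K] [NumberField K] (x : K) (T : ℝ), height K x ≤ T ↔ Y120.HtLe K T x) ∧
    (∀ d : ℕ, 1 ≤ d → Fam (fun (n : ℕ) (j : Fin (d + 1)) => (n : ℝ) ^ (j : ℕ)) (1 / d)) ∧
    (∀ (k : ℕ) (b : Fin k → ℝ), (∀ j, 1 < b j) → Fam (fun (n : Fin k → ℕ) (j : Fin k) => b j ^ n j) 0) ∧
    (∀ (k : ℕ) (a : Fin k → ℝ), (∀ j, 0 < a j) →
      Fam (fun (n : Fin k → ℕ) (j : Fin k) => (n j : ℝ) ^ a j) (∑ j, 1 / a j)) ∧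
    ∀ (k : ℕ) (u : Fin k → ℕ → ℝ) (τ : Fin k → ℝ), (∀ j, Sq (u j) (τ j)) →
      Fam (fun (n : Fin k → ℕ) (j : Fin k) => u j (n j)) (∑ j, τ j) := by
  refine ⟨fun Z hZ X _ _ _ hX ι _ _ n F I r v τ θ hv hτ hθ => ?_, facts.1, facts.2.1, facts.2.2,
    Pool.Agent.N251.LF.examples⟩
  obtain ⟨E, hE, h⟩ := lin_all F hX hZ v hτ hθ hv
  refine ⟨E, hE, fun α hα K _ k hk z hz c => (h α hα K k hk z hz c).subset ?_⟩
  intro i hi hcon
  exact hi (fun x hx h' => unrel_of_good (hcon x hx h'))

end Pool.Agent.Results.MP_2cf66e_nt.GenericLinearForms
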