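import Pool.Agent.T9h85.EP.Facts

/-!
# The exponentials of algebraic numbers against the periods of the curves whose parameters have heights near the orders of the subgroups of `F_p^*`

Polynomials with algebraic coefficients in the periods of the algebraic forms on a variety over the algebraic numbers are
periods in the sense of Kontsevich and Zagier. Let `F` be a family with symplectic monodromy over an open subset `U` of the
line, for instance the products of the Legendre curve with parameter `x` and other curves whose periods at `x` are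
hypergeometric functions. Let `G` be a function with steps bounded below by a positive constant and polynomial growth, for
example `a v^e`, let `0 ≤ κ < 1`, `0 ≤ c < 1` and `η < (1 - c) (1 - κ) / 2`.

We show that there is a thin set `P` of primes, with at most `Y^(1 - η)` elements up to `Y`, such that for all number fields
`K` in `ℂ`, all algebraic numbers `γ` and all `k`, for all but finitely many of the primes `p` outside `P`: for EVERY subgroup
of `F_p^*` which contains an integer `a`, `2 ≤ a ≤ p^c` (for example generated by such an integer), with the order `w`, and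
for EVERY `x` in `K` with `|height x - G w| ≤ w^κ`, the number `e^γ` has nothing to do with the periods of the member of the
family over `x`: it is not a value of a polynomial of degree at most `k` in the periods with coefficients of height at most
`(height x)^k` (in another way than on the whole torsor of the period matrices), and if `γ` is not on one fixed line
`ℚ γ₀`, then it is not a root of a polynomial whose coefficients are such values. Here `P` does not depend on `K`, `γ`, `k`.
A single prime has many subgroups of this kind, and a single `w` can be the order for many primes.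

Method: the number of the members which are not generic (starting files), the orders of the subgroups (`T9h59/OR`: the primes
with `p ∣ a^w - 1` for small `w`, the cofactors `(p - 1) / w` for large `w`), and a diagonal argument over the countably many
`(K, γ, k)`.
-/

set_option autoImplicit false

namespace Pool.Agent.Results.MP_2cf66e_nt.SubgroupOrders

open Pool.Agent Pool.Agent.Y890.MV Pool.Agent.Y890.SM
open Pool.Agent.N733.TG (Expanding expanding_pow)
open Pool.Agent.T9h59.OR (SubOrder subOrder_orderOf)
open Pool.Agent.T9h85.EP (Unrel unrel_of_good sub_all facts)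
open Pool.Agent.N603.DB (height)

/-- **Exponentials, periods and the orders of the subgroups of `F_p^*`.**
(1) Let `Z` be a countable set of complex numbers, `F` a family with symplectic monodromy with one parameter, let `G` have
steps `≥ a > 0` and growth at most `v^d`, `0 ≤ κ < 1`, `0 ≤ c < 1`, `η < (1 - c) (1 - κ) / 2`. There is a set `P` with at most
`Y^(1 - η)` elements up to `Y` such that for all number fields `K` in `ℂ`, all `k ≥ [K : ℚ]` and all `z` in `Z`, for all
large primes `p` outside `P`: for the order `w` of EVERY subgroup of `F_p^*` which contains an integer `a`, `2 ≤ a ≤ p^c`,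
and EVERY `x` in `K` in `InnerM F.U k` with `|height K x - G w| ≤ w^κ`: `z` has nothing to do with the periods over `x`
(`Unrel F k K z x`).
(2) The numbers `e^γ` for algebraic `γ` form a countable set, and there is `γ₀` such that all of them with `γ ∉ ℚ γ₀` are
transcendental over `ℚ(π)`; (3) an example of the families: products of Legendre curves and hypergeometric functions;
(4) the meaning of the height; (5) the order of `a` modulo `p` is the order of such a subgroup; (6) examples of `G`. -/
theorem result :
    (∀ (Z : Set ℂ), Z.Countable → ∀ (X : Type) [Fintype X] [DecidableEq X] [Nonempty X], Fintype.card X = 1 →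
      ∀ (ι : Type) [Fintype ι] [DecidableEq ι] (n : ι → ℕ) (F : SympFam X n)
      (G : ℕ → ℝ) (d : ℝ), Expanding G d → ∀ κ c η : ℝ, 0 ≤ κ → κ < 1 → 0 ≤ c → c < 1 →
      η < (1 - c) * (1 - κ) / 2 →
      ∃ P : Set ℕ, (∀ Y : ℕ, ({p : ℕ | p ∈ P ∧ p ≤ Y}.ncard : ℝ) ≤ (Y : ℝ) ^ (1 - η)) ∧
        ∀ (K : IntermediateField ℚ ℂ) [NumberField K] (k : ℕ), Module.finrank ℚ K ≤ k → ∀ z ∈ Z,
          ∃ p₀ : ℕ, ∀ p : ℕ, p₀ ≤ p → p.Prime → p ∉ P → ∀ w, SubOrder ((p : ℝ) ^ c) p w →
            ∀ x : K, (fun _ : X => (x : ℂ)) ∈ InnerM F.U k → |height K x - G w| ≤ (w : ℝ) ^ κ →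
              Unrel F k K z x) ∧
    ({z : ℂ | ∃ γ : ℂ, IsAlgebraic ℚ γ ∧ z = Complex.exp γ}.Countable ∧
      ∃ γ₀ : ℂ, ∀ γ : ℂ, IsAlgebraic ℚ γ → (∀ q : ℚ, γ ≠ q * γ₀) →
        Transcendental (IntermediateField.adjoin ℚ {(Real.pi : ℂ)}) (Complex.exp γ)) ∧
    (∀ A : Finset ℚ, (∀ μ ∈ A, 0 < μ ∧ μ ≤ 1 / 2) →
      ∃ F : SympFam (Fin 1) (fun _ : Fin 1 × A => 2),
        F.U = {x | x 0 ∈ Complex.slitPlane ∧ 1 - x 0 ∈ Complex.slitPlane} ∧
        (∀ q x, F.P q x = N156.HG.PH ((q.2.1 : ℚ) : ℝ) (x 0)) ∧
        ∀ x p, p ∈ F.torsor x ↔ p.2 ≠ 0 ∧ ∀ q, -(2 * Complex.I) *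
          ((Real.sin (Real.pi * (q.2.1 : ℚ)) : ℝ) : ℂ) * (x 0 * (1 - x 0)) * (p.1 q).det = p.2) ∧
    (∀ (K : Type) [Field K] [NumberField K] (x : K) (T : ℝ), height K x ≤ T ↔ Y120.HtLe K T x) ∧
    (∀ (B : ℝ) (p a : ℕ), p.Prime → 2 ≤ a → (a : ℝ) ≤ B → ¬ p ∣ a → SubOrder B p (orderOf (a : ZMod p))) ∧
    ∀ α d : ℝ, 0 < α → 1 ≤ d → Expanding (fun v => α * (v : ℝ) ^ d) d := by
  refine ⟨fun Z hZ X _ _ _ hX ι _ _ n F G d hG κ c η hκ hκ1 hc0 hc1 hη => ?_, facts.1, facts.2.1, facts.2.2,
    fun B p a hp ha haB hpa => subOrder_orderOf hp ha haB hpa, fun α d hα hd => expanding_pow hα hd⟩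
  obtain ⟨P, h1, h2⟩ := sub_all F hX hZ hG hκ hκ1 hc0 hc1 hη
  refine ⟨P, h1, fun K _ k hk z hz => ?_⟩
  obtain ⟨p₀, h3⟩ := h2 K k hk z hz
  exact ⟨p₀, fun p hp hpp hpP w hw x hx h => unrel_of_good (h3 p hp hpp hpP w hw x hx h)⟩

end Pool.Agent.Results.MP_2cf66e_nt.SubgroupOrders
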